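import Pool.Agent.R161.Bohr.Basic

/-!
Claim 4.2 by approximation (piece BO-C42 of the project for MP_0fda35_co).
-/

set_option autoImplicit false

namespace Pool.Agent.R865.Bohr

open Finset Pool.Agent.R161.Bohr
open scoped ComplexConjugate

universe u

/-- subtracting a long partial Fourier sum makes all energies small -/
theorem tail {G : Type u} [AddCommGroup G] {m : St G} (hm : m.Inv) {f : G → ℂ} (hf : Bdd f)
    {τ : ℝ} (hτ : 0 < τ) : ∃ Λ0 : Finset (AddChar G Circle), ∀ Λ : Finset (AddChar G Circle),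
      ∑ ξ ∈ Λ, ‖coef m (fun x => f x - trig Λ0 (coef m f) x) ξ‖ ^ 2 ≤ τ ^ 2 := by
  classical
  set S : Set ℝ := {r | ∃ Λ : Finset (AddChar G Circle), r = ∑ ξ ∈ Λ, ‖coef m f ξ‖ ^ 2} with hS
  have hb : BddAbove S := ⟨m.n2 f, by
    rintro r ⟨Λ, rfl⟩
    exact bessel hm hf Λ⟩
  have hne : S.Nonempty := ⟨_, ∅, rfl⟩
  obtain ⟨r, ⟨Λ0, rfl⟩, hr⟩ := exists_lt_of_lt_csSup hne
    (show sSup S - τ ^ 2 < sSup S by have : 0 < τ ^ 2 := by positivity
                                     linarith)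
  refine ⟨Λ0, fun Λ => ?_⟩
  have h1 : ∀ ξ, ‖coef m (fun x => f x - trig Λ0 (coef m f) x) ξ‖ ^ 2 =
      if ξ ∈ Λ0 then 0 else ‖coef m f ξ‖ ^ 2 := by
    intro ξ
    have h2 : coef m (fun x => f x - trig Λ0 (coef m f) x) ξ =
        coef m f ξ - coef m (trig Λ0 (coef m f)) ξ := coef_sub hf (Bdd.trig _ _) ξ
    rw [h2, coef_trig hm]
    split_ifs <;> simp
  rw [Finset.sum_congr rfl fun ξ _ => h1 ξ]
  have h3 : ∑ ξ ∈ Λ, (if ξ ∈ Λ0 then (0 : ℝ) else ‖coef m f ξ‖ ^ 2) =
      ∑ ξ ∈ Λ \ Λ0, ‖coef m f ξ‖ ^ 2 := by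
    rw [← Finset.filter_notMem_eq_sdiff, Finset.sum_filter]
    refine Finset.sum_congr rfl fun ξ _ => ?_
    by_cases h : ξ ∈ Λ0 <;> simp [h]
  rw [h3]
  have h4 : ∑ ξ ∈ Λ \ Λ0, ‖coef m f ξ‖ ^ 2 + ∑ ξ ∈ Λ0, ‖coef m f ξ‖ ^ 2 =
      ∑ ξ ∈ Λ ∪ Λ0, ‖coef m f ξ‖ ^ 2 := by
    rw [← Finset.sdiff_union_self_eq_union, Finset.sum_union Finset.sdiff_disjoint]
  have h5 : ∑ ξ ∈ Λ ∪ Λ0, ‖coef m f ξ‖ ^ 2 ≤ sSup S := le_csSup hb ⟨_, rfl⟩
  linarith

theorem others {d : ℕ} (hd : 3 ≤ d) (i : Fin d) : ∃ a b : Fin d, i ≠ a ∧ i ≠ b ∧ a ≠ b := by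
  have h : 1 < (univ.erase i : Finset (Fin d)).card := by
    rw [card_erase_of_mem (mem_univ i), card_univ, Fintype.card_fin]
    omega
  obtain ⟨a, ha, b, hb, hab⟩ := Finset.one_lt_card.1 h
  exact ⟨a, b, (ne_of_mem_erase ha).symm, (ne_of_mem_erase hb).symm, hab⟩

/-- a common bound -/
theorem common {G : Type u} {d : ℕ} (h : Fin d → G → ℂ) (hb : ∀ j, Bdd (h j)) :
    ∃ C : ℝ, 1 ≤ C ∧ ∀ j x, ‖h j x‖ ≤ C := by
  choose C hC0 hC using fun j => (hb j).nonneg
  refine ⟨1 + ∑ j, C j, ?_, fun j x => ?_⟩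
  · have : 0 ≤ ∑ j, C j := Finset.sum_nonneg fun j _ => hC0 j
    linarith
  · have h1 := Finset.single_le_sum (f := C) (fun j _ => hC0 j) (mem_univ j)
    have h2 := hC j x
    linarith

theorem s_c42 : S_c41.{u} → S_c42i.{u} → S_c42.{u} := by
  classical
  intro h41 h42 G _ m hm hA hW d N hd φ hφ M hM ω g hg j0 ε hε hco hn2
  have hωb : Bdd (fun x : Fin d → G => (ω x : ℂ)) := Bdd.char ω
  have hb : ∀ q : Fin d → G → ℂ, (∀ j, Bdd (q j)) →
      Bdd (fun x : Fin d → G => (ω x : ℂ) * ∏ j, q j (x j)) :=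
    fun q hq => hωb.mul (Bdd.prod _ fun j _ => (hq j).comp fun x : Fin d → G => x j)
  -- the hybrid functions
  let mix : Finset (Fin d) → (Fin d → Finset (AddChar G Circle)) → Fin d → G → ℂ :=
    fun T Λ j => if j ∈ T then trig (Λ j) (coef m (g j)) else g j
  have hmix : ∀ T Λ j, Bdd (mix T Λ j) := by
    intro T Λ j
    simp only [mix]
    split_ifs
    · exact Bdd.trig _ _
    · exact hg j
  have key : ∀ T : Finset (Fin d), ∀ η : ℝ, 0 < η → ∃ Λ : Fin d → Finset (AddChar G Circle),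
      ‖M (fun x => (ω x : ℂ) * ∏ j, g j (x j)) -
        M (fun x => (ω x : ℂ) * ∏ j, mix T Λ j (x j))‖ ≤ η := by
    intro T
    induction T using Finset.induction_on with
    | empty =>
      intro η hη
      refine ⟨fun _ => ∅, ?_⟩
      simp only [mix, notMem_empty, if_false, sub_self, norm_zero]
      exact hη.le
    | insert i T hi ih =>
      intro η hη
      obtain ⟨Λ, hΛ⟩ := ih (η / 2) (by positivity)
      obtain ⟨C, hC1, hC⟩ := common (mix T Λ) (hmix T Λ)
      set τ : ℝ := η / (2 * ((N : ℝ) + 1) * C ^ d) with hτ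
      have hCd : 0 < C ^ d := by positivity
      have hτ0 : 0 < τ := by positivity
      obtain ⟨Λ0, hΛ0⟩ := tail hm (hg i) hτ0
      refine ⟨Function.update Λ i Λ0, ?_⟩
      obtain ⟨a, b, hia, hib, hab⟩ := others hd i
      -- the difference function
      set h : Fin d → G → ℂ := fun j => if j = i then
        (fun x => g i x - trig Λ0 (coef m (g i)) x) else mix T Λ j with hh
      have hhi : h i = fun x => g i x - trig Λ0 (coef m (g i)) x := by simp [hh]
      have hhj : ∀ j, j ≠ i → h j = mix T Λ j := by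
        intro j hj
        simp [hh, hj]
      have hhb : ∀ j, Bdd (h j) := by
        intro j
        by_cases hj : j = i
        · subst hj
          rw [hhi]
          exact (hg _).sub (Bdd.trig _ _)
        · rw [hhj j hj]
          exact hmix T Λ j
      have h1 := h41 G m hm hA hW d N φ hφ M hM i a b hia hib hab ω h hhb C τ hC1 hτ0.le
        (fun j hj x => by rw [hhj j hj]; exact hC j x) (fun Λ' => by rw [hhi]; exact hΛ0 Λ')
      have hmi : mix T Λ i = g i := by simp [mix, hi]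
      have hmi' : mix (insert i T) (Function.update Λ i Λ0) i = trig Λ0 (coef m (g i)) := by
        simp [mix]
      have hmj : ∀ j, j ≠ i → mix (insert i T) (Function.update Λ i Λ0) j = mix T Λ j := by
        intro j hj
        simp [mix, hj]
      have h2 : (fun x : Fin d → G => (ω x : ℂ) * ∏ j, h j (x j)) = fun x =>
          (ω x : ℂ) * ∏ j, mix T Λ j (x j) -
          (ω x : ℂ) * ∏ j, mix (insert i T) (Function.update Λ i Λ0) j (x j) := by
        funext x
        rw [← mul_sub]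
        congr 1
        rw [← Finset.mul_prod_erase univ (fun j => h j (x j)) (mem_univ i),
          ← Finset.mul_prod_erase univ (fun j => mix T Λ j (x j)) (mem_univ i),
          ← Finset.mul_prod_erase univ
            (fun j => mix (insert i T) (Function.update Λ i Λ0) j (x j)) (mem_univ i)]
        have e1 : ∏ j ∈ univ.erase i, h j (x j) = ∏ j ∈ univ.erase i, mix T Λ j (x j) :=
          Finset.prod_congr rfl fun j hj => by rw [hhj j (Finset.ne_of_mem_erase hj)]
        have e2 : ∏ j ∈ univ.erase i, mix (insert i T) (Function.update Λ i Λ0) j (x j) =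
            ∏ j ∈ univ.erase i, mix T Λ j (x j) :=
          Finset.prod_congr rfl fun j hj => by rw [hmj j (Finset.ne_of_mem_erase hj)]
        rw [e1, e2, hhi, hmi, hmi']
        ring
      rw [h2, M.map_sub (hb _ (hmix T Λ)) (hb _ (hmix (insert i T) _))] at h1
      have h3 : (N : ℝ) * τ * C ^ d ≤ η / 2 := by
        rw [hτ]
        have : (N : ℝ) * (η / (2 * ((N : ℝ) + 1) * C ^ d)) * C ^ d =
            (η / 2) * ((N : ℝ) / ((N : ℝ) + 1)) := by
          field_simp
        rw [this]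
        have h4 : (N : ℝ) / ((N : ℝ) + 1) ≤ 1 := by
          rw [div_le_one (by positivity)]
          linarith
        have h5 : 0 ≤ η / 2 := by positivity
        nlinarith
      calc _ = ‖(M (fun x => (ω x : ℂ) * ∏ j, g j (x j)) -
            M (fun x => (ω x : ℂ) * ∏ j, mix T Λ j (x j))) +
            (M (fun x => (ω x : ℂ) * ∏ j, mix T Λ j (x j)) -
            M (fun x => (ω x : ℂ) *
              ∏ j, mix (insert i T) (Function.update Λ i Λ0) j (x j)))‖ := by
              congr 1; ring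
        _ ≤ _ := norm_add_le _ _
        _ ≤ η / 2 + η / 2 := add_le_add hΛ (h1.trans h3)
        _ = η := by ring
  apply le_of_forall_pos_le_add
  intro η hη
  obtain ⟨Λ, hΛ⟩ := key univ η hη
  obtain ⟨a, b, hia, hib, hab⟩ := others hd j0
  have h1 := h42 G m hm d N φ hφ M hM j0 a b hia hib hab ω Λ (fun j => coef m (g j)) ε hε
    (fun ξ _ => hco ξ) (fun j hj => (bessel hm (hg j) (Λ j)).trans (hn2 j hj))
  have h2 : (fun x : Fin d → G => (ω x : ℂ) * ∏ j, mix univ Λ j (x j)) =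
      fun x => (ω x : ℂ) * ∏ j, trig (Λ j) (coef m (g j)) (x j) := by
    funext x
    simp [mix]
  rw [h2] at hΛ
  calc ‖M (fun x => (ω x : ℂ) * ∏ j, g j (x j))‖
      = ‖M (fun x => (ω x : ℂ) * ∏ j, trig (Λ j) (coef m (g j)) (x j)) +
        (M (fun x => (ω x : ℂ) * ∏ j, g j (x j)) -
          M (fun x => (ω x : ℂ) * ∏ j, trig (Λ j) (coef m (g j)) (x j)))‖ := by
        congr 1; ring
    _ ≤ _ := norm_add_le _ _
    _ ≤ N * ε + η := add_le_add h1 hΛ

end Pool.Agent.R865.Bohr
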